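import Mathlib

/-! Weighted graphs: sets meeting many edges. -/

set_option autoImplicit false

namespace Pool.Agent.MP_f151b7_co.ET

open Finset

/-- A symmetric nonnegative matrix with zero diagonal. -/
structure Wt (V : Type) where
  μ : V → V → ℝ
  nn : ∀ u v, 0 ≤ μ u v
  sy : ∀ u v, μ u v = μ v u
  di : ∀ u, μ u u = 0

theorem minimal {V : Type} [DecidableEq V] (P : Finset V → Prop) (Y : Finset V) (h : P Y) :
    ∃ S ⊆ Y, P S ∧ ∀ v ∈ S, ¬P (S.erase v) := by
  induction Y using Finset.strongInduction with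
  | H Y ih =>
    by_cases k : ∃ v ∈ Y, P (Y.erase v)
    · obtain ⟨v, hv, k⟩ := k
      obtain ⟨S, a, b⟩ := ih _ (erase_ssubset hv) k
      exact ⟨S, a.trans (erase_subset _ _), b⟩
    · exact ⟨Y, Subset.rfl, h, fun v hv n => k ⟨v, hv, n⟩⟩

namespace Wt

variable {V : Type} (W : Wt V)

/-- The weight from a vertex to a set. -/
def r (v : V) (S : Finset V) : ℝ := ∑ u ∈ S, W.μ v u

/-- The weight from a set to a set. -/
def β (S T : Finset V) : ℝ := ∑ v ∈ S, W.r v T

/-- The weight of the edges inside `R` that meet `T`. -/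
noncomputable def H (R T : Finset V) : ℝ := W.β T R - W.β T T / 2

variable {S T R A B C : Finset V} {v : V}

theorem rn (v : V) (S : Finset V) : 0 ≤ W.r v S := sum_nonneg fun _ _ => W.nn _ _

theorem βn (S T : Finset V) : 0 ≤ W.β S T := sum_nonneg fun _ _ => W.rn _ _

theorem rm (v : V) (h : S ⊆ T) : W.r v S ≤ W.r v T :=
  sum_le_sum_of_subset_of_nonneg h fun _ _ _ => W.nn _ _

theorem βm (A : Finset V) (h : S ⊆ T) : W.β A S ≤ W.β A T := sum_le_sum fun _ _ => W.rm _ h

theorem βs (S T : Finset V) : W.β S T = W.β T S := by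
  unfold β r
  rw [sum_comm]
  exact sum_congr rfl fun _ _ => sum_congr rfl fun _ _ => W.sy _ _

theorem H0 (R : Finset V) : W.H R ∅ = 0 := by simp [H, β]

theorem β1 (v : V) (T : Finset V) : W.β {v} T = W.r v T := sum_singleton _ _

theorem H1 (R : Finset V) (v : V) : W.H R {v} = W.r v R := by simp [H, β, r, W.di]

variable [DecidableEq V]

theorem ru (v : V) (h : Disjoint S T) : W.r v (S ∪ T) = W.r v S + W.r v T := sum_union h

theorem βl (A : Finset V) (h : Disjoint S T) : W.β (S ∪ T) A = W.β S A + W.β T A := sum_union h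

theorem βr (A : Finset V) (h : Disjoint S T) : W.β A (S ∪ T) = W.β A S + W.β A T := by
  rw [W.βs, W.βl A h, W.βs S, W.βs T]

theorem β2 (A : Finset V) (h : Disjoint S T) (a : S ⊆ R) (b : T ⊆ R) :
    W.β A S + W.β A T ≤ W.β A R := (W.βr A h).symm.trans_le (W.βm A (union_subset a b))

theorem Hu (R : Finset V) (h : Disjoint S T) : W.H R (S ∪ T) = W.H R S + W.H R T - W.β T S := by
  simp only [H, W.βl _ h, W.βr _ h, W.βs S T]
  ring

theorem re (v : V) (T : Finset V) : W.r v (T.erase v) = W.r v T := sum_erase _ (W.di v)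

theorem He (R : Finset V) (h : v ∈ T) : W.H R T = W.H R (T.erase v) + (W.r v R - W.r v T) := by
  have := W.Hu R (S := T.erase v) (T := {v}) (by simp)
  rw [union_comm, ← insert_eq, insert_erase h, W.H1, W.β1, W.re] at this
  linarith

theorem many (hC : C ⊆ R) (hT : T ⊆ R) (d : Disjoint T C) {K : Finset V} (hK : K ⊆ T) {σ b : ℝ}
    (h : ∀ v ∈ K, W.H R (T.erase v) ≤ σ ∧ W.r v C ≤ b) :
    K.card * W.H R T ≤ K.card * (σ + b) + (W.β T R - W.β T T - W.β T C) := by
  have a : ∑ v ∈ K, W.H R T ≤ ∑ v ∈ K, (σ + b + (W.r v R - W.r v T - W.r v C)) :=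
    sum_le_sum fun v hv => by linarith [h v hv, W.He R (hK hv)]
  have c : ∑ v ∈ K, (W.r v R - W.r v T - W.r v C) ≤ ∑ v ∈ T, (W.r v R - W.r v T - W.r v C) :=
    sum_le_sum_of_subset_of_nonneg hK fun v _ _ => by
      linarith [W.ru v d, W.rm v (union_subset hT hC)]
  rw [sum_add_distrib, sum_const, sum_const, nsmul_eq_mul, nsmul_eq_mul] at a
  rw [sum_sub_distrib (s := T), sum_sub_distrib (s := T)] at c
  exact a.trans (add_le_add le_rfl c)

/-- A minimal good set has small degree sum. -/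
theorem small (hC : C ⊆ R) {Y : Finset V} (hY : Y ⊆ R) (d : Disjoint Y C) {σ b : ℝ} (s0 : 0 ≤ σ)
    (h1 : ∀ v ∈ Y, W.r v R ≤ σ) (h2 : ∀ v ∈ Y, W.r v C ≤ b) (g : σ < W.H R Y) :
    ∃ T ⊆ Y, σ < W.H R T ∧ W.β T R + W.β T C ≤ 2 * (σ + b) := by
  obtain ⟨T, a, g, m⟩ := minimal (fun T => σ < W.H R T) Y g
  have c : 2 ≤ T.card := by
    by_contra n
    rcases T.eq_empty_or_nonempty with rfl | ⟨v, hv⟩
    · exact g.not_ge (W.H0 R ▸ s0)
    · rw [eq_singleton_iff_unique_mem.2 ⟨hv, fun u hu =>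
        card_le_one.1 (by omega) u hu v hv⟩, W.H1] at g
      exact g.not_ge (h1 v (a hv))
  obtain ⟨K, hK, e⟩ := exists_subset_card_eq c
  have := W.many hC (a.trans hY) (d.mono_left a) hK fun v hv =>
    ⟨not_lt.1 (m v (hK hv)), h2 v (a (hK hv))⟩
  rw [e, H, Nat.cast_ofNat] at this
  exact ⟨T, a, g, by linarith⟩

theorem split (R : Finset V) {α α' : ℝ} (h0 : 0 ≤ α') (h : α + α' < W.β R R / 2) (h1 : 0 ≤ α) :
    ∃ S ⊆ R, α < W.H R (R \ S) ∧ α' < W.H R S := by
  obtain ⟨S, a, g, m⟩ := minimal (fun T => α' < W.H R T) R (by unfold H; linarith)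
  obtain ⟨x, hx⟩ : S.Nonempty := nonempty_iff_ne_empty.2 fun e => g.not_ge (e ▸ W.H0 R ▸ h0)
  have e1 := W.He S hx
  have e2 := W.βm (S.erase x) a
  have e3 := not_lt.1 (m x hx)
  have e4 := W.Hu R (S := R \ S) (T := S) sdiff_disjoint
  have e5 := W.βr S (S := R \ S) (T := S) sdiff_disjoint
  rw [sdiff_union_of_subset a] at e4 e5
  refine ⟨S, a, ?_, g⟩
  unfold H at *
  linarith

theorem cut (Y : Finset V) : ∃ A B, Disjoint A B ∧ A ∪ B = Y ∧ (∀ v ∈ A, W.r v A ≤ W.r v B) ∧
    ∀ v ∈ B, W.r v B ≤ W.r v A := by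
  obtain ⟨⟨A, B⟩, h, m⟩ := exists_max_image ((Y.powerset ×ˢ Y.powerset).filter
    fun p => Disjoint p.1 p.2 ∧ p.1 ∪ p.2 = Y) (fun p => W.β p.1 p.2) ⟨(Y, ∅), by simp⟩
  simp only [mem_filter, mem_product, mem_powerset, Prod.forall] at h m
  have k : ∀ A B, Disjoint A B → A ∪ B = Y → (∀ A' B', Disjoint A' B' → A' ∪ B' = Y →
      W.β A' B' ≤ W.β A B) → ∀ v ∈ A, W.r v A ≤ W.r v B := fun A B d e m v hv => by
    have n : Disjoint {v} B := d.mono_left (singleton_subset_iff.2 hv)
    have := m (A.erase v) ({v} ∪ B) (disjoint_union_right.2 ⟨by simp, d.mono_left (erase_subset _ _)⟩)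
      (by rw [← union_assoc, union_comm _ {v}, ← insert_eq, insert_erase hv, e])
    have e1 := W.βl B (S := {v}) (T := A.erase v) (by simp)
    rw [← insert_eq, insert_erase hv, W.β1] at e1
    rw [W.βr _ n, W.βs, W.β1, W.re] at this
    linarith
  have m' : ∀ A' B', Disjoint A' B' → A' ∪ B' = Y → W.β A' B' ≤ W.β A B := fun A' B' d e =>
    m A' B' ⟨⟨e ▸ subset_union_left, e ▸ subset_union_right⟩, d, e⟩
  exact ⟨A, B, h.2.1, h.2.2, k A B h.2.1 h.2.2 m', k B A h.2.1.symm (union_comm A B ▸ h.2.2)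
    fun A' B' d e => (m' A' B' d e).trans_eq (W.βs _ _)⟩

variable [Fintype V]

theorem core {τ : ℝ} (d : Disjoint A B) (lA : ∀ v ∈ A, W.r v A ≤ W.r v B)
    (lB : ∀ v ∈ B, W.r v B ≤ W.r v A) (h1 : ∀ v ∈ A, W.r v univ ≤ τ) (hB : W.H univ B ≤ τ)
    (no : ∀ S ⊆ A ∪ B, ∀ T ⊆ A ∪ B, Disjoint S T → τ < W.H univ S → W.H univ T ≤ τ) :
    W.β A univ + W.β B univ ≤ 3 * τ := by
  classical
  have a1 : W.β A A ≤ W.β A B := sum_le_sum lA
  have a2 : W.β B B ≤ W.β B A := sum_le_sum lB
  have a3 := W.β2 B d (subset_univ _) (subset_univ _)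
  have a4 := W.βs A B
  have a5 := W.βn B B
  have a6 := W.βn A A
  obtain ⟨N, eN⟩ : ∃ N, N = A.filter fun v => W.H univ (B ∪ {v}) ≤ τ := ⟨_, rfl⟩
  have NA : N ⊆ A := eN ▸ filter_subset _ _
  have dN : Disjoint B N := d.symm.mono_right NA
  have cp : ∀ P, W.β P univ = W.β P B + W.β P Bᶜ := fun P => by
    rw [← W.βr P disjoint_compl_right, union_compl]
  have hc : ∀ P, Disjoint B P → W.H univ (B ∪ P) = W.H univ B + W.H Bᶜ P := fun P e => by
    rw [W.Hu _ e]
    unfold H
    linarith [cp P]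
  by_cases c1 : τ < W.H univ (B ∪ N)
  · obtain ⟨P, PN, g, s⟩ := W.small (R := Bᶜ) (C := ∅) (empty_subset _) (Y := N)
      (le_compl_iff_disjoint_left.2 dN) (disjoint_empty_right _) (σ := τ - W.H univ B) (b := 0)
      (sub_nonneg.2 hB) (fun v hv => by
        have := hc {v} (dN.mono_right (singleton_subset_iff.2 hv))
        rw [W.H1] at this
        linarith [(mem_filter.1 (eN ▸ hv)).2]) (fun v _ => by simp [r]) (by linarith [hc N dN])
    have PA := PN.trans NA
    have z := no (B ∪ P) (union_subset subset_union_right (PA.trans subset_union_left)) (A \ P)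
      (sdiff_subset.trans subset_union_left) (disjoint_union_left.2
        ⟨d.symm.mono_right sdiff_subset, disjoint_sdiff⟩) (by linarith [hc P (dN.mono_right PN)])
    have b1 := W.βl univ (S := A \ P) (T := P) sdiff_disjoint
    have b2 := W.βl B (S := A \ P) (T := P) sdiff_disjoint
    rw [sdiff_union_of_subset PA] at b1 b2
    have b3 : W.β (A \ P) A ≤ W.β (A \ P) B := sum_le_sum fun v hv => lA v (sdiff_subset hv)
    have b4 := W.βm (A \ P) (sdiff_subset (s := A) (t := P))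
    have b5 := W.βn (A \ P) B
    have b6 := W.βn P ∅
    have b7 := cp P
    unfold H at *
    linarith
  have b1 := W.βl univ (S := A \ N) (T := N) sdiff_disjoint
  have b2 := W.βl univ dN
  have b3 := W.βm (B ∪ N) (subset_univ (B ∪ N))
  have RY : B ∪ N ⊆ A ∪ B := union_subset subset_union_right (NA.trans subset_union_left)
  rw [sdiff_union_of_subset NA] at b1
  rcases lt_trichotomy (A \ N).card 2 with l | l | l
  · have b4 : W.β (A \ N) univ ≤ _ := sum_le_card_nsmul _ _ τ fun v hv => h1 v (sdiff_subset hv)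
    have b5 : ((A \ N).card : ℝ) ≤ 1 := by exact_mod_cast Nat.lt_succ_iff.1 l
    have b6 := mul_le_mul_of_nonneg_right b5 (show 0 ≤ τ by
      unfold H at hB; linarith [W.βn B A])
    rw [nsmul_eq_mul] at b4
    unfold H at *
    linarith
  · obtain ⟨v, v', vv, e⟩ := card_eq_two.1 l
    have hv : v ∈ A \ N := by simp [e]
    have hv' : v' ∈ A \ N := by simp [e]
    have nr : ∀ x ∈ A \ N, Disjoint (B ∪ N) {x} := fun x hx => disjoint_singleton_right.2 fun k =>
      (mem_union.1 k).elim (disjoint_left.1 d (sdiff_subset hx)) (mem_sdiff.1 hx).2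
    have ad : ∀ x ∈ A \ N, ∀ T ⊆ B ∪ N, W.r x univ + W.H (B ∪ N) T ≤ W.H univ (T ∪ {x}) :=
      fun x hx T hT => by
        rw [W.Hu _ ((nr x hx).mono_left hT), W.H1, W.βs]
        unfold H
        linarith [W.β2 T (nr x hx) (subset_univ _) (subset_univ _)]
    have b4 : W.β (A \ N) univ = W.r v univ + W.r v' univ := by rw [e]; exact sum_pair vv
    by_contra n
    obtain ⟨S, a, g1, g2⟩ := W.split (B ∪ N) (sub_nonneg.2 (h1 v' (sdiff_subset hv')))
      (by unfold H at c1; linarith) (sub_nonneg.2 (h1 v (sdiff_subset hv)))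
    have := no (((B ∪ N) \ S) ∪ {v}) (union_subset (sdiff_subset.trans RY) (singleton_subset_iff.2
      (mem_union_left _ (sdiff_subset hv)))) (S ∪ {v'}) (union_subset (a.trans RY)
      (singleton_subset_iff.2 (mem_union_left _ (sdiff_subset hv')))) (disjoint_union_left.2
        ⟨disjoint_union_right.2 ⟨sdiff_disjoint, (nr v' hv').mono_left sdiff_subset⟩,
          disjoint_union_right.2 ⟨((nr v hv).mono_left a).symm, by simpa using vv⟩⟩)
      (by linarith [ad v hv _ (sdiff_subset (t := S))])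
    linarith [ad v' hv' S a]
  · obtain ⟨K, hK, e⟩ := exists_subset_card_eq (Nat.succ_le_of_lt l)
    have := W.many (C := ∅) (b := 0) (σ := τ) (empty_subset _) (subset_univ A)
      (disjoint_empty_right _) (hK.trans sdiff_subset) fun v hv => ⟨no (B ∪ {v})
        (union_subset subset_union_right (singleton_subset_iff.2 (mem_union_left _
          (sdiff_subset (hK hv))))) _ ((erase_subset _ _).trans subset_union_left)
        (disjoint_union_left.2 ⟨d.symm.mono_right (erase_subset _ _), by simp⟩)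
        (not_le.1 fun k => (mem_sdiff.1 (hK hv)).2 (eN ▸ mem_filter.2 ⟨sdiff_subset (hK hv), k⟩)),
        by simp [r]⟩
    rw [e] at this
    push_cast at this
    have b6 := W.βn A ∅
    unfold H at *
    linarith

/-- Two disjoint good sets. -/
theorem two {τ : ℝ} (Y : Finset V) (h1 : ∀ v ∈ Y, W.r v univ ≤ τ) (h : 3 * τ < W.β Y univ) :
    ∃ S ⊆ Y, ∃ T ⊆ Y, Disjoint S T ∧ τ < W.H univ S ∧ τ < W.H univ T := by
  by_contra n
  obtain ⟨A, B, d, rfl, lA, lB⟩ := W.cut Y
  have no : ∀ S ⊆ A ∪ B, ∀ T ⊆ A ∪ B, Disjoint S T → τ < W.H univ S → W.H univ T ≤ τ :=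
    fun S a T b c g => not_lt.1 fun k => n ⟨S, a, T, b, c, g, k⟩
  rw [W.βl _ d] at h
  rcases le_or_gt (W.H univ A) τ with k | k
  · linarith [W.core d.symm lB lA (fun v hv => h1 v (mem_union_right _ hv)) k (union_comm A B ▸ no)]
  · linarith [W.core d lA lB (fun v hv => h1 v (mem_union_left _ hv))
      (no A subset_union_left B subset_union_right d k) no]

end Wt

end Pool.Agent.MP_f151b7_co.ET
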