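import Pool.Agent.MP_f151b7_co.ET.Core

/-! Families of disjoint good sets and the passage to simple graphs. -/

set_option autoImplicit false
set_option linter.unusedSectionVars false

namespace Pool.Agent.MP_f151b7_co.ET

open Finset

namespace Wt

variable {V : Type} [DecidableEq V] [Fintype V] (W : Wt V)

/-- There are `j` disjoint good subsets of `Y`. -/
def Fam (τ : ℝ) (j : ℕ) (Y : Finset V) : Prop :=
  ∃ c : V → ℕ, ∀ i < j, ∃ S ⊆ Y, τ < W.H univ S ∧ ∀ v ∈ S, c v = i

variable {W} {τ b κ : ℝ} {j : ℕ} {Y Z S C L : Finset V}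

theorem Fam.zero : W.Fam τ 0 Y := ⟨fun _ => 0, fun _ h => absurd h (Nat.not_lt_zero _)⟩

theorem Fam.mono (h : W.Fam τ j Y) {i : ℕ} (l : i ≤ j) (a : Y ⊆ Z) : W.Fam τ i Z :=
  h.imp fun _ h n hn => (h n (hn.trans_le l)).imp fun _ k => ⟨k.1.trans a, k.2⟩

theorem Fam.step (h : W.Fam τ j Y) (g : τ < W.H univ S) (d : Disjoint S Y) (a : Y ⊆ Z)
    (s : S ⊆ Z) : W.Fam τ (j + 1) Z := by
  obtain ⟨c, h⟩ := h
  refine ⟨fun v => if v ∈ S then j else c v, fun i hi => ?_⟩
  rcases (Nat.lt_succ_iff.1 hi).eq_or_lt with rfl | l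
  · exact ⟨S, s, g, fun v hv => if_pos hv⟩
  · obtain ⟨T, t, g, e⟩ := h i l
    exact ⟨T, t.trans a, g, fun v hv => (if_neg (disjoint_right.1 d (t hv))).trans (e v hv)⟩

theorem Fam.two (h1 : ∀ v ∈ Y, W.r v univ ≤ τ) (h : 3 * τ < W.β Y univ) : W.Fam τ 2 Y := by
  obtain ⟨S, a, T, b, d, g, k⟩ := W.two Y h1 h
  exact (Fam.zero.step k (disjoint_empty_right _) (empty_subset _) Subset.rfl).step g d b a

theorem good (d : Disjoint Y C) (h : 2 * τ < W.β Y univ + W.β Y C) : τ < W.H univ Y := by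
  unfold H
  linarith [W.β2 Y d (subset_univ _) (subset_univ _)]

theorem Fam.greedy (t0 : 0 ≤ τ) (b0 : 0 ≤ b) (k0 : 0 ≤ κ) (d : Disjoint L C)
    (h1 : ∀ v ∈ L, W.r v univ ≤ τ) (h2 : ∀ v ∈ L, W.r v C ≤ b) {n : ℕ}
    (h : ∀ Y ⊆ L, κ < W.β Y univ + W.β Y C → W.Fam τ n Y) (j : ℕ) :
    ∀ Y ⊆ L, κ + j * (2 * (τ + b)) < W.β Y univ + W.β Y C → W.Fam τ (n + j) Y := by
  induction j with
  | zero => simpa using h
  | succ j ih =>
    intro Y a g
    push_cast at g
    obtain ⟨T, t, gT, s⟩ := W.small (subset_univ C) (subset_univ Y) (d.mono_left a) t0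
      (fun v hv => h1 v (a hv)) (fun v hv => h2 v (a hv)) (good (d.mono_left a)
        (by nlinarith [mul_nonneg (Nat.cast_nonneg (α := ℝ) j) (add_nonneg t0 b0)]))
    have e1 := W.βl univ (S := Y \ T) (T := T) sdiff_disjoint
    have e2 := W.βl C (S := Y \ T) (T := T) sdiff_disjoint
    rw [sdiff_union_of_subset t] at e1 e2
    exact (ih _ (sdiff_subset.trans a) (by linarith)).step gT disjoint_sdiff sdiff_subset t

theorem Fam.big (h : W.Fam τ j L) (d : Disjoint L C) (g : ∀ v ∈ C, τ < W.r v univ) :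
    W.Fam τ (j + C.card) (L ∪ C) := by
  induction C using Finset.induction with
  | empty => simpa using h
  | insert v C n ih =>
    rw [card_insert_of_notMem n]
    exact (ih (d.mono_right (subset_insert _ _)) fun u hu => g u (mem_insert_of_mem hu)).step
      (S := {v}) (W.H1 _ _ ▸ g v (mem_insert_self _ _)) (disjoint_singleton_left.2 fun k =>
        (mem_union.1 k).elim (disjoint_right.1 d (mem_insert_self _ _)) n)
      (union_subset_union_right (subset_insert _ _)) (by simp)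

/-- The case of a vertex of large degree. -/
theorem Fam.centre (h1 : ∀ u v, W.μ u v ≤ 1) (t0 : 0 ≤ τ) {k : ℕ} (hk : (k : ℝ) ≤ τ + 3)
    (m : 2 * ((k - 1) * (τ + 1)) ≤ W.β univ univ) {z : V} (hz : τ < W.r z univ) :
    W.Fam τ k univ := by
  classical
  obtain ⟨C, eC⟩ : ∃ C, C = univ.filter fun v => τ < W.r v univ := ⟨_, rfl⟩
  have g : ∀ v ∈ C, τ < W.r v univ := fun v hv => by simpa [eC] using hv
  have g' : ∀ v ∈ Cᶜ, W.r v univ ≤ τ := fun v hv => by simpa [eC] using hv
  have rc : ∀ v S, W.r v S ≤ S.card := fun v S =>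
    (sum_le_card_nsmul S _ 1 fun u _ => h1 v u).trans_eq (nsmul_one _)
  rcases le_or_gt k C.card with l | l
  · exact ((Fam.zero (Y := Cᶜ)).big disjoint_compl_left g).mono (by omega) (subset_univ _)
  obtain ⟨j, rfl⟩ := Nat.exists_eq_add_of_lt l
  have b1 : 1 ≤ C.card := card_pos.2 ⟨z, by simpa [eC] using hz⟩
  have e1 : W.β C C ≤ _ := sum_le_card_nsmul C _ ((C.card : ℝ) - 1) fun v hv => by
    have := rc v (C.erase v)
    rwa [W.re, card_erase_of_mem hv, Nat.cast_sub b1, Nat.cast_one] at this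
  have e2 := W.βl univ (S := Cᶜ) (T := C) disjoint_compl_left
  have e3 := W.βr C (S := Cᶜ) (T := C) disjoint_compl_left
  rw [union_comm, union_compl] at e2 e3
  rw [nsmul_eq_mul] at e1
  refine ((Fam.greedy (κ := 2 * τ) (n := 1) t0 C.card.cast_nonneg (by linarith) disjoint_compl_left
    g' (fun v _ => rc v C) (fun Y a h => Fam.zero.step (good (disjoint_compl_left.mono_left a) h)
      (disjoint_empty_right _) (empty_subset _) Subset.rfl) j _ Subset.rfl ?_).big
    disjoint_compl_left g).mono (by omega) (subset_univ _)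
  push_cast at hk m
  rw [W.βs _ C]
  rcases b1.eq_or_lt with e | e
  · rw [← e, Nat.cast_one] at m e1 ⊢
    linarith
  · have : (2 : ℝ) ≤ C.card := by exact_mod_cast e
    nlinarith [mul_nonneg (show (0 : ℝ) ≤ C.card - 1 by linarith)
      (show 0 ≤ 2 * (τ + 1 - j) - C.card by linarith)]

end Wt

open Classical in
/-- The adjacency matrix. -/
noncomputable def adj {V : Type} (G : SimpleGraph V) : Wt V where
  μ u v := if G.Adj u v then 1 else 0
  nn u v := by positivity
  sy u v := by simp only [G.adj_comm]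
  di u := by simp

variable {V : Type} [Fintype V]

theorem adj_le (G : SimpleGraph V) (u v : V) : (adj G).μ u v ≤ 1 := by
  unfold adj; dsimp only; split_ifs <;> norm_num

theorem hand (G : SimpleGraph V) : (adj G).β univ univ = 2 * G.edgeSet.ncard := by
  classical
  have := G.sum_degrees_eq_twice_card_edges
  rw [← G.coe_edgeFinset, Set.ncard_coe_finset]
  rw [← Nat.cast_inj (R := ℝ)] at this
  push_cast at this
  rw [← this]
  refine sum_congr rfl fun v _ => ?_
  simp only [Wt.r, adj, sum_boole, ← G.card_neighborFinset_eq_degree, G.neighborFinset_eq_filter]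

theorem meets (G : SimpleGraph V) (S : Finset V) :
    (adj G).H univ S ≤ {e ∈ G.edgeSet | ∃ v ∈ e, v ∈ S}.ncard := by
  classical
  let G' : SimpleGraph V := ⟨fun u v => G.Adj u v ∧ (u ∈ S ∨ v ∈ S),
    ⟨fun _ _ h => ⟨h.1.symm, h.2.symm⟩⟩, ⟨fun _ h => G.irrefl h.1⟩⟩
  have e : G'.edgeSet = {e ∈ G.edgeSet | ∃ v ∈ e, v ∈ S} := by
    ext e
    induction e using Sym2.ind with
    | h u v => simp [G']
  have e1 := hand G'
  have e2 := (adj G').βl univ (S := S) (T := Sᶜ) disjoint_compl_right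
  have e3 := (adj G).βr S (S := S) (T := Sᶜ) disjoint_compl_right
  have e4 : (adj G').β S univ = (adj G).β S univ :=
    sum_congr rfl fun v hv => sum_congr rfl fun u _ => by simp [adj, G', hv]
  have e5 : (adj G).β S Sᶜ ≤ (adj G').β univ Sᶜ :=
    (sum_congr rfl fun v hv => sum_congr rfl fun u _ => by simp [adj, G', hv]).trans_le
      (sum_le_sum_of_subset_of_nonneg (subset_univ S) fun v _ _ => (adj G').rn v _)
  rw [union_compl] at e2 e3
  rw [(adj G').βs] at e5
  rw [← e, Wt.H]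
  linarith

theorem colour (G : SimpleGraph V) [DecidableEq V] {τ k : ℕ} (k0 : 0 < k)
    (h : (adj G).Fam τ k univ) :
    ∃ c : V → Fin k, ∀ i, τ < {e ∈ G.edgeSet | ∃ v ∈ e, c v = i}.ncard := by
  obtain ⟨c, h⟩ := h
  refine ⟨fun v => ⟨c v % k, Nat.mod_lt _ k0⟩, fun i => ?_⟩
  obtain ⟨S, -, g, e⟩ := h i i.2
  refine (Nat.cast_lt.1 (g.trans_le (meets G S))).trans_le (Set.ncard_le_ncard ?_ (Set.toFinite _))
  rintro _ ⟨a, v, hv, s⟩
  exact ⟨a, v, hv, Fin.ext ((congrArg (· % k) (e v s)).trans (Nat.mod_eq_of_lt i.2))⟩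

end Pool.Agent.MP_f151b7_co.ET
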