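import Mathlib

/-! A clique joined to an almost regular graph of odd order. -/

set_option autoImplicit false

namespace Pool.Agent.MP_f151b7_co.ET

open Finset

/-- Almost regular graphs of odd order. -/
theorem reg (j d : ℕ) (hd : d ≤ 2 * j) : ∃ N : ZMod (2 * j + 1) → Finset (ZMod (2 * j + 1)),
    (∀ u v, v ∈ N u → u ∈ N v) ∧ (∀ u, u ∉ N u) ∧ (∀ u, (N u).card ≤ d) ∧
      (2 * j + 1) * d ≤ ∑ u, (N u).card + 1 := by
  obtain ⟨A, eA⟩ : ∃ A : Finset (ZMod (2 * j + 1)), A = univ.filter fun a =>
    a.val ∈ Icc 1 (d / 2) ∪ Ico (2 * j + 1 - d / 2) (2 * j + 1) := ⟨_, rfl⟩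
  have mA : ∀ a, a ∈ A ↔ 1 ≤ a.val ∧ (a.val ≤ d / 2 ∨ 2 * j + 1 - d / 2 ≤ a.val) := fun a => by
    have := a.val_lt
    simp only [eA, mem_filter, mem_univ, true_and, mem_union, mem_Icc, mem_Ico]
    omega
  have ng : ∀ u v, v - u ∈ A → u - v ∈ A := fun u v h => by
    have := (v - u).val_lt
    rw [← neg_sub, mA, ZMod.neg_val, if_neg fun e => by simp [mA, e] at h]
    rw [mA] at h
    omega
  have cA : A.card = 2 * (d / 2) := by
    rw [← card_image_of_injective _ (ZMod.val_injective _), show A.image ZMod.val =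
      Icc 1 (d / 2) ∪ Ico (2 * j + 1 - d / 2) (2 * j + 1) from ?_, card_union_of_disjoint,
      Nat.card_Icc, Nat.card_Ico]
    · omega
    · simp only [disjoint_left, mem_Icc, mem_Ico]
      omega
    · ext x
      simp only [eA, mem_image, mem_filter, mem_univ, true_and]
      refine ⟨fun ⟨a, h, e⟩ => e ▸ h, fun h => ?_⟩
      have : (x : ZMod (2 * j + 1)).val = x := ZMod.val_cast_of_lt (by
        simp only [mem_union, mem_Icc, mem_Ico] at h
        omega)
      exact ⟨x, this.symm ▸ h, this⟩
  have c1 : ∀ u, (univ.filter fun v => v - u ∈ A).card = 2 * (d / 2) := fun u => by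
    rw [← cA]
    exact card_nbij' (· - u) (· + u) (by simp [Set.MapsTo]) (by simp [Set.MapsTo])
      (fun _ _ => by simp) fun _ _ => by simp
  obtain ⟨P, eP⟩ : ∃ P : ZMod (2 * j + 1) → Finset (ZMod (2 * j + 1)), P = fun u => univ.filter
    fun v => d % 2 = 1 ∧ (u.val + (j + 1) = v.val ∨ v.val + (j + 1) = u.val) := ⟨_, rfl⟩
  have mP : ∀ u v, v ∈ P u ↔ d % 2 = 1 ∧ (u.val + (j + 1) = v.val ∨ v.val + (j + 1) = u.val) :=
    fun u v => by simp [eP]
  have dj : ∀ u, Disjoint (univ.filter fun v => v - u ∈ A) (P u) := fun u => by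
    have k : ∀ u v, d % 2 = 1 → u.val + (j + 1) = v.val → v - u ∉ A := fun u v o e h => by
      rw [mA, ZMod.val_sub (by omega)] at h
      omega
    refine disjoint_left.2 fun v h p => ?_
    obtain ⟨o, e | e⟩ := (mP u v).1 p
    exacts [k u v o e (mem_filter.1 h).2, k v u o e (ng _ _ (mem_filter.1 h).2)]
  refine ⟨fun u => (univ.filter fun v => v - u ∈ A) ∪ P u, fun u v h => ?_, fun u h => ?_,
    fun u => ?_, ?_⟩
  · simp only [mem_union, mem_filter, mem_univ, true_and, mP] at h ⊢
    exact h.imp (ng _ _) fun h => ⟨h.1, h.2.symm⟩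
  · simp [mP, mA] at h
  · rw [card_union_of_disjoint (dj u), c1]
    rcases Nat.mod_two_eq_zero_or_one d with o | o
    · rw [show P u = ∅ from eq_empty_of_forall_notMem fun v h => by simp [mP, o] at h, card_empty]
      omega
    · have : (P u).card ≤ 1 := card_le_one.2 fun v hv w hw => ZMod.val_injective _ (by
        have := u.val_lt
        have := v.val_lt
        have := w.val_lt
        rw [mP] at hv hw
        omega)
      omega
  · have : ∑ _u : ZMod (2 * j + 1), d ≤ ∑ u, (((univ.filter fun v => v - u ∈ A) ∪ P u).card +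
        if u = j then 1 else 0) := sum_le_sum fun u _ => by
      rw [card_union_of_disjoint (dj u), c1]
      split_ifs with e
      · omega
      rcases Nat.mod_two_eq_zero_or_one d with o | o
      · omega
      have n : u.val ≠ j := fun k => e (by rw [← ZMod.natCast_zmod_val u, k])
      have := u.val_lt
      have : 0 < (P u).card := card_pos.2 (by
        rcases lt_or_gt_of_ne n with l | l
        · exact ⟨(u.val + (j + 1) : ℕ), (mP _ _).2 ⟨o, Or.inl (ZMod.val_cast_of_lt (by omega)).symm⟩⟩
        · exact ⟨(u.val - (j + 1) : ℕ), (mP _ _).2 ⟨o, Or.inr (by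
            rw [ZMod.val_cast_of_lt (by omega)]; omega)⟩⟩)
      omega
    simpa [sum_add_distrib] using this

/-- A clique on `b` vertices joined to an almost regular graph on `2 j + 1` vertices. -/
theorem join (b j t : ℕ) (h : t ≤ b + 2 * j) : ∃ G : SimpleGraph (Fin b ⊕ ZMod (2 * j + 1)),
    b * (b - 1) + (2 * j + 1) * (t + min b t) ≤ 2 * G.edgeSet.ncard + 1 ∧
    ∀ c : Fin b ⊕ ZMod (2 * j + 1) → Fin (b + j + 1), ∃ i,
      {e ∈ G.edgeSet | ∃ v ∈ e, c v = i}.ncard ≤ t := by
  classical
  obtain ⟨N, sy, ir, le, ge⟩ := reg j (t - b) (by omega)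
  let G : SimpleGraph (Fin b ⊕ ZMod (2 * j + 1)) :=
    { Adj := fun x y => match x, y with
        | .inl x, .inl y => y ≠ x
        | .inl x, .inr _ => x.val < t
        | .inr _, .inl y => y.val < t
        | .inr u, .inr v => v ∈ N u
      symm := ⟨by rintro (x | x) (y | y) h; exacts [Ne.symm h, h, h, sy _ _ h]⟩
      loopless := ⟨by rintro (x | x) h; exacts [h rfl, ir x h]⟩ }
  have d1 : ∀ x, G.degree (.inl x) = b - 1 + if x.val < t then 2 * j + 1 else 0 := fun x => by
    rw [← G.card_neighborFinset_eq_degree, show G.neighborFinset (.inl x) =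
      (univ.erase x).disjSum (if x.val < t then univ else ∅) by
        ext (y | y) <;> by_cases k : x.val < t <;> simp [G, k], card_disjSum]
    split_ifs <;> simp
  have d2 : ∀ u, G.degree (.inr u) = min b t + (N u).card := fun u => by
    rw [← G.card_neighborFinset_eq_degree, show G.neighborFinset (.inr u) =
      (univ.filter fun y : Fin b => y.val < t).disjSum (N u) by ext (y | y) <;> simp [G],
      card_disjSum, Fin.card_filter_val_lt]
  refine ⟨G, ?_, fun c => ?_⟩
  · rw [← G.coe_edgeFinset, Set.ncard_coe_finset, ← G.sum_degrees_eq_twice_card_edges,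
      Fintype.sum_sum_type]
    simp only [d1, d2, sum_add_distrib, ← sum_filter, sum_const, card_univ, Fintype.card_fin,
      ZMod.card, smul_eq_mul, Fin.card_filter_val_lt]
    have : t - b + min b t = t := by omega
    nlinarith
  · obtain ⟨i, hi, k⟩ := exists_card_fiber_lt_of_card_lt_mul (s := univ)
      (t := (univ.image fun x => c (.inl x))ᶜ) (f := fun u => c (.inr u)) (n := 2) (by
        have := card_image_le (s := univ) (f := fun x => c (.inl x))
        rw [card_compl]
        simp only [card_univ, Fintype.card_fin, ZMod.card] at this ⊢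
        omega)
    obtain ⟨v, hv⟩ := card_le_one_iff_subset_singleton.1 (Nat.lt_succ_iff.1 k)
    refine ⟨i, (Set.ncard_le_ncard (t := (G.incidenceFinset (.inr v) : Set _)) ?_).trans ?_⟩
    · rintro e ⟨a, u | u, hu, e⟩
      · exact absurd (mem_image.2 ⟨u, mem_univ _, e⟩) (mem_compl.1 hi)
      · rw [mem_singleton.1 (hv (mem_filter.2 ⟨mem_univ u, e⟩))] at hu
        exact mem_coe.2 ((G.mem_incidenceFinset _ _).2 ⟨a, hu⟩)
    · rw [Set.ncard_coe_finset, G.card_incidenceFinset_eq_degree, d2]
      have := le v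
      omega

end Pool.Agent.MP_f151b7_co.ET
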