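import Pool.Agent.MP_f151b7_co.ET.Star

/-! A cheaper good set when the number of vertices of large degree does not divide the bound. -/

set_option autoImplicit false
set_option linter.unusedSectionVars false

namespace Pool.Agent.MP_f151b7_co.ET

open Finset

namespace Wt

variable {V : Type} [DecidableEq V] [Fintype V] {W : Wt V} {Y C L : Finset V} {t b : ℕ}

theorem βz (h : ∀ u v, W.μ u v = 0 ∨ W.μ u v = 1) (S T : Finset V) : ∃ n : ℕ, W.β S T = n := by
  have a : ∀ x y : ℝ, (∃ n : ℕ, x = n) → (∃ n : ℕ, y = n) → ∃ n : ℕ, x + y = n :=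
    fun _ _ ⟨n, e⟩ ⟨m, f⟩ => ⟨n + m, by rw [e, f, Nat.cast_add]⟩
  exact sum_induction _ (fun x : ℝ => ∃ n : ℕ, x = n) a ⟨0, by simp⟩ fun u _ =>
    sum_induction _ (fun x : ℝ => ∃ n : ℕ, x = n) a ⟨0, by simp⟩ fun v _ =>
      (h u v).elim (fun e => ⟨0, by simp [e]⟩) fun e => ⟨1, by simp [e]⟩

theorem r1 (W : Wt V) (v u : V) : W.r v {u} = W.μ v u := sum_singleton _ _

theorem closed (d : Disjoint Y C) (h1 : ∀ v ∈ Y, W.r v univ < t) (h2 : ∀ v ∈ Y, W.r v C ≤ b)
    (A : ∀ T ⊆ Y, t < W.H univ T → 2 * ((t : ℝ) + b) ≤ W.β T univ + W.β T C) {Z : Finset V}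
    (a : Z ⊆ Y) (g : t < W.H univ Z) : ∃ T ⊆ Z, (∀ v ∈ T, W.r v C = b ∧ W.r v univ = W.r v T + b) ∧
      W.H univ T = t + b ∧ T.card * (b : ℝ) + W.β T T / 2 = t + b := by
  obtain ⟨T, x, g, m⟩ := minimal (fun T => t < W.H univ T) Z g
  have y := x.trans a
  have e0 := A T y g
  have c : 3 ≤ T.card := by
    by_contra n
    have := sum_lt_sum_of_nonempty (s := T) (f := fun v => W.r v univ + W.r v C)
      (g := fun _ => (t : ℝ) + b) (nonempty_iff_ne_empty.2 fun e =>
        g.not_ge (e ▸ W.H0 univ ▸ t.cast_nonneg)) fun v hv => by linarith [h1 v (y hv), h2 v (y hv)]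
    rw [sum_add_distrib, sum_const, nsmul_eq_mul] at this
    have c : (T.card : ℝ) ≤ 2 := by exact_mod_cast by omega
    unfold β at e0
    nlinarith [t.cast_nonneg (α := ℝ), b.cast_nonneg (α := ℝ)]
  obtain ⟨K, hK, e⟩ := exists_subset_card_eq c
  have e1 := W.many (subset_univ C) (subset_univ T) (d.mono_left y) hK fun v hv =>
    ⟨not_lt.1 (m v (hK hv)), h2 v (y (hK hv))⟩
  have e2 := W.β2 T (d.mono_left y) (subset_univ _) (subset_univ _)
  rw [e] at e1
  push_cast at e1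
  have e3 : W.H univ T = t + b := by unfold H at *; linarith
  have e4 := (sum_eq_zero_iff_of_nonneg (s := T) (f := fun v => W.r v univ - W.r v T - W.r v C)
    fun v _ => by linarith [W.ru v (d.mono_left y), W.rm v (subset_univ (T ∪ C))]).1 (by
      rw [sum_sub_distrib, sum_sub_distrib]
      unfold H β at *
      linarith)
  have e5 : ∀ v ∈ T, W.r v C = b ∧ W.r v univ = W.r v T + b := fun v hv => by
    constructor <;> linarith [e4 v hv, W.He univ hv, not_lt.1 (m v hv), h2 v (y hv)]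
  refine ⟨T, x, e5, e3, ?_⟩
  have e6 : W.β T univ = _ := sum_congr rfl fun v hv => (e5 v hv).2
  rw [sum_add_distrib, sum_const, nsmul_eq_mul] at e6
  unfold H β at *
  linarith

theorem save (h : ∀ u v, W.μ u v = 0 ∨ W.μ u v = 1) (d : Disjoint Y C)
    (h1 : ∀ v ∈ Y, W.r v univ ≤ t) (h2 : ∀ v ∈ Y, W.r v C ≤ b) (b0 : 0 < b) (nd : ¬b ∣ t) {i : ℕ}
    (g : (2 * (i : ℝ) + 3) * (t + b) < W.β Y univ + W.β Y C) (l : W.β Y univ ≤ (2 * i + 3) * t) :
    ∃ T ⊆ Y, t < W.H univ T ∧ W.β T univ + W.β T C ≤ 2 * ((t : ℝ) + b) - 1 := by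
  by_contra n
  have A : ∀ T ⊆ Y, t < W.H univ T → 2 * ((t : ℝ) + b) ≤ W.β T univ + W.β T C := fun T a k => by
    have := not_le.1 fun z => n ⟨T, a, k, z⟩
    obtain ⟨x, e⟩ := βz h T univ
    obtain ⟨y, f⟩ := βz h T C
    rw [e, f, sub_lt_iff_lt_add] at this
    rw [e, f]
    exact_mod_cast Nat.lt_succ_iff.1 (by exact_mod_cast this)
  have t0 : (0 : ℝ) < t := Nat.cast_pos.2 (Nat.pos_of_ne_zero fun e => nd (e ▸ dvd_zero b))
  have b1 : (0 : ℝ) < b := Nat.cast_pos.2 b0
  have i0 := i.cast_nonneg (α := ℝ)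
  by_cases z : ∃ u ∈ Y, t ≤ W.r u univ
  · obtain ⟨u, hu, z⟩ := z
    have k : ∑ w ∈ Y, t * W.r w C ≤ ∑ w ∈ Y, b * W.r w univ := sum_le_sum fun w hw => by
      rcases le_or_gt (t : ℝ) (W.r w univ) with c | c
      · nlinarith [h2 w hw]
      have e : Disjoint {u} {w} := disjoint_singleton.2 fun e => c.not_ge (e ▸ z)
      have e1 := W.ru w (d.mono_left (singleton_subset_iff.2 hu))
      have e2 := W.rm w (subset_univ ({u} ∪ C))
      have e3 := W.Hu univ e
      have e4 := W.βl univ e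
      have e5 := W.βl C e
      simp only [W.H1, W.β1] at e3 e4 e5
      have : W.r w univ ≤ W.r w {u} := not_lt.1 fun c' => by
        linarith [A _ (union_subset (singleton_subset_iff.2 hu) (singleton_subset_iff.2 hw))
          (by linarith), h1 u hu, h2 u hu, h2 w hw]
      nlinarith [W.rn w univ, W.rn w C]
    rw [← mul_sum, ← mul_sum] at k
    unfold β at g l
    nlinarith
  have h1' : ∀ v ∈ Y, W.r v univ < t := fun v hv => not_le.1 fun c => z ⟨v, hv, c⟩
  obtain ⟨T, a, q, e1, e2⟩ := closed d h1' h2 A Subset.rfl (good d (by nlinarith))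
  have out : ∀ T ⊆ Y, (∀ v ∈ T, W.r v C = b ∧ W.r v univ = W.r v T + b) → ∀ v ∈ T, ∀ w ∈ Y,
      w ∉ T → W.μ v w ≤ 0 := fun T a q v hv w hw n => by
    have e : Disjoint T {w} := disjoint_singleton_right.2 n
    linarith [W.ru v e, W.ru v (d.mono_left (union_subset a (singleton_subset_iff.2 hw))),
      W.rm v (subset_univ (T ∪ {w} ∪ C)), q v hv, W.r1 v w]
  obtain ⟨v, hv, u, hu, p⟩ : ∃ v ∈ T, ∃ u ∈ T, 0 < W.μ u v := by
    by_contra n
    push Not at n
    have : W.β T T ≤ 0 := sum_nonpos fun u hu => sum_nonpos fun v hv => n v hv u hu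
    have e : T.card * b = t + b := by exact_mod_cast (by linarith [W.βn T T] :
      (T.card : ℝ) * b = t + b)
    exact nd ((Nat.dvd_add_left dvd_rfl).1 (e ▸ dvd_mul_left _ _))
  obtain ⟨w, hw, p'⟩ : ∃ w ∈ Y \ T, 0 < W.r w univ := by
    by_contra n
    push Not at n
    have : W.β (Y \ T) univ ≤ 0 := sum_nonpos n
    have e3 := W.βm (Y \ T) (subset_univ C)
    have e4 := W.β2 T (d.mono_left a) (subset_univ _) (subset_univ _)
    unfold H at e1
    nlinarith [W.βx univ a, W.βx C a]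
  obtain ⟨hw, nw⟩ := mem_sdiff.1 hw
  have dw : Disjoint T {w} := disjoint_singleton_right.2 nw
  have z0 : W.β T {w} ≤ 0 := sum_nonpos fun x hx => (W.r1 x w).trans_le (out T a q x hx w hw nw)
  have s1 := erase_subset v T
  have e3 := W.Hu univ (dw.mono_left s1)
  have e4 := W.βm {w} s1
  rw [W.H1] at e3
  have y := union_subset (s1.trans a) (singleton_subset_iff.2 hw)
  obtain ⟨S, x, q', -, e5⟩ := closed d h1' h2 A y (by linarith [W.He univ hv, q v hv, W.βs T {w}])
  have nv : v ∉ S := fun k => (mem_union.1 (x k)).elim (notMem_erase _ _)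
    fun k => nw (mem_singleton.1 k ▸ hv)
  have nu : u ∉ S := fun k => p.not_ge (out S (x.trans y) q' u k v (a hv) nv)
  have uv : u ≠ v := fun e => by simp [e, W.di] at p
  have c : S.card + 1 ≤ T.card := by
    have := card_le_card (show S ⊆ (T.erase v ∪ {w}).erase u from
      subset_erase.2 ⟨x, nu⟩)
    rw [card_erase_of_mem (mem_union_left _ (mem_erase.2 ⟨uv, hu⟩)),
      card_union_of_disjoint (dw.mono_left s1), card_erase_of_mem hv, card_singleton] at this
    have := card_pos.2 ⟨v, hv⟩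
    have := one_lt_card.2 ⟨u, hu, v, hv, uv⟩
    omega
  have c' : (S.card : ℝ) + 1 ≤ T.card := by exact_mod_cast c
  have x' : S ⊆ T ∪ {w} := x.trans (union_subset_union_left s1)
  have e6 := W.βm S x'
  have e7 := W.βm (T ∪ {w}) x'
  have e8 : W.β {w} {w} = 0 := by simp [β, r, W.di]
  nlinarith [W.βs S (T ∪ {w}), W.βl (T ∪ {w}) dw, W.βr T dw, W.βr {w} dw, W.βs T {w}]

theorem Fam.low' {τ : ℝ} (t0 : 0 ≤ τ) (hd : ∀ v ∈ Y, W.r v univ ≤ τ) (j : ℕ)
    (h : (2 * j + 3) * τ < W.β Y univ) : W.Fam τ (2 + j) Y := by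
  have b0 : ∀ Y, W.β Y ∅ = 0 := fun Y => by simp [β, r]
  exact Fam.greedy (C := ∅) (b := 0) (κ := 3 * τ) t0 le_rfl (by positivity)
    (disjoint_empty_right _) hd (fun v _ => by simp [r])
    (fun Z a h => Fam.two (fun v hv => hd v (a hv)) (by linarith [b0 Z])) j _ Subset.rfl
    (by linarith [b0 Y])

theorem Fam.thrift (h : ∀ u v, W.μ u v = 0 ∨ W.μ u v = 1) (d : Disjoint L C)
    (h1 : ∀ v ∈ L, W.r v univ ≤ t) (h2 : ∀ v ∈ L, W.r v C ≤ b) (b0 : 0 < b) (nd : ¬b ∣ t) (i : ℕ) :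
    ∀ Y ⊆ L, (2 * (i : ℝ) + 1) * (t + b) < W.β Y univ + W.β Y C →
      2 * t + i * (2 * ((t : ℝ) + b) - 1) < W.β Y univ + W.β Y C → W.Fam t (i + 1) Y := by
  induction i with
  | zero =>
    exact fun Y a _ g => Fam.zero.step (good (d.mono_left a) (by simpa using g))
      (disjoint_empty_right _) (empty_subset _) Subset.rfl
  | succ i ih =>
    intro Y a g g'
    push_cast at g g'
    rcases le_or_gt (W.β Y univ) ((2 * i + 3) * t) with l | l
    · obtain ⟨T, x, k, s⟩ := save h (d.mono_left a) (fun v hv => h1 v (a hv))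
        (fun v hv => h2 v (a hv)) b0 nd (by linarith) l
      have e1 := W.βx univ x
      have e2 := W.βx C x
      exact (ih _ (sdiff_subset.trans a) (by linarith) (by linarith)).step k disjoint_sdiff
        sdiff_subset x
    · exact (Fam.low' t.cast_nonneg (fun v hv => h1 v (a hv)) i l).mono (by omega) Subset.rfl

/-- The case of a small bound. -/
theorem Fam.all (h : ∀ u v, W.μ u v = 0 ∨ W.μ u v = 1) {k : ℕ} (k2 : 2 ≤ k) (tk : t < k)
    (m1 : ∀ b j : ℕ, b + j + 1 = k → b ∣ t →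
      (b : ℝ) * (b - 1) + 2 * t + j * (2 * (t + b)) < W.β univ univ)
    (m2 : ∀ b j : ℕ, b + j + 1 = k → ¬b ∣ t →
      (b : ℝ) * (b - 1) + (2 * j + 1) * (t + (min b t : ℕ)) < W.β univ univ) :
    W.Fam t k univ := by
  classical
  have h1 : ∀ u v, W.μ u v ≤ 1 := fun u v => (h u v).elim (fun e => by simp [e]) le_of_eq
  obtain ⟨C, eC⟩ : ∃ C, C = univ.filter fun v => t < W.r v univ := ⟨_, rfl⟩
  have g : ∀ v ∈ C, t < W.r v univ := fun v hv => by simpa [eC] using hv
  have g' : ∀ v ∈ Cᶜ, W.r v univ ≤ t := fun v hv => by simpa [eC] using hv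
  rcases le_or_gt k C.card with l | l
  · exact ((Fam.zero (Y := Cᶜ)).big disjoint_compl_left g).mono (by omega) (subset_univ _)
  obtain ⟨j, rfl⟩ := Nat.exists_eq_add_of_lt l
  have e1 := βc h1 C
  have e2 := W.βl univ (S := Cᶜ) (T := C) disjoint_compl_left
  have e3 := W.βr C (S := Cᶜ) (T := C) disjoint_compl_left
  have e4 := W.βs Cᶜ C
  have t0 := t.cast_nonneg (α := ℝ)
  rw [union_comm, union_compl] at e2 e3
  have gr : ∀ x : ℝ, 0 ≤ x → (∀ v ∈ Cᶜ, W.r v C ≤ x) →
      2 * t + j * (2 * (t + x)) < W.β Cᶜ univ + W.β Cᶜ C → W.Fam t (1 + j) Cᶜ := fun x x0 hx =>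
    Fam.greedy (κ := 2 * t) (n := 1) t0 x0 (by linarith) disjoint_compl_left g' hx
      (fun Y a h => Fam.zero.step (good (disjoint_compl_left.mono_left a) h)
        (disjoint_empty_right _) (empty_subset _) Subset.rfl) j _ Subset.rfl
  refine (Fam.big (j := 1 + j) ?_ disjoint_compl_left g).mono (by omega) (subset_univ _)
  by_cases n : C.card ∣ t
  · exact gr _ C.card.cast_nonneg (fun v _ => rc h1 v C) (by linarith [m1 _ j rfl n])
  have n2 := m2 _ j rfl n
  rcases le_total t C.card with c | c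
  · rw [min_eq_right c] at n2
    exact gr t t0 (fun v hv => (W.rm v (subset_univ _)).trans (g' v hv)) (by linarith)
  rw [min_eq_left c] at n2
  rcases C.card.eq_zero_or_pos with z | z
  · obtain ⟨i, rfl⟩ : ∃ i, j = i + 1 := ⟨j - 1, by omega⟩
    refine (Fam.low' t0 g' i ?_).mono (by omega) Subset.rfl
    rw [card_eq_zero.1 z] at *
    simpa [add_assoc, mul_add, show (2 : ℝ) + 1 = 3 by norm_num] using n2
  · have : (t : ℝ) ≤ C.card + j := by exact_mod_cast Nat.lt_succ_iff.1 tk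
    exact (Fam.thrift h disjoint_compl_left g' (fun v _ => rc h1 v C) z n j _ Subset.rfl
      (by linarith) (by linarith)).mono (by omega) Subset.rfl

end Wt

end Pool.Agent.MP_f151b7_co.ET
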