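import Pool.Agent.MP_f151b7_co.ET.Fam

/-! Families of disjoint good sets when all degrees are small. -/

set_option autoImplicit false
set_option linter.unusedSectionVars false

namespace Pool.Agent.MP_f151b7_co.ET

open Finset

namespace Wt

variable {V : Type} [DecidableEq V] [Fintype V] {W : Wt V} {τ : ℝ} {Y Z S X B : Finset V}

theorem rc (h1 : ∀ u v, W.μ u v ≤ 1) (v : V) (S : Finset V) : W.r v S ≤ S.card :=
  (sum_le_card_nsmul S _ 1 fun u _ => h1 v u).trans_eq (nsmul_one _)

theorem βc (h1 : ∀ u v, W.μ u v ≤ 1) (S : Finset V) : W.β S S ≤ S.card * (S.card - 1) := by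
  rw [← nsmul_eq_mul]
  refine sum_le_card_nsmul S _ _ fun v hv => ?_
  have := rc h1 v (S.erase v)
  rwa [W.re, card_erase_of_mem hv, Nat.cast_sub (card_pos.2 ⟨v, hv⟩), Nat.cast_one] at this

theorem βd (h : ∀ v ∈ S, W.r v univ ≤ τ) : W.β S univ ≤ S.card * τ :=
  (sum_le_card_nsmul S _ τ h).trans_eq (nsmul_eq_mul _ _)

theorem βx (W : Wt V) (A : Finset V) (h : S ⊆ Y) : W.β Y A = W.β (Y \ S) A + W.β S A := by
  rw [← W.βl A sdiff_disjoint, sdiff_union_of_subset h]

/-- A locally optimal colouring with three colours. -/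
theorem col (W : Wt V) (Y : Finset V) (h : B.card ≤ 3) : ∃ c : V → Fin 3,
    (∀ u ∈ B, ∀ v ∈ B, c u = c v → u = v) ∧
      ∀ v ∈ Y, v ∉ B → 3 * W.r v (Y.filter fun w => c w = c v) ≤ W.r v univ := by
  classical
  obtain ⟨e⟩ : Nonempty (B ↪ Fin 3) := Function.Embedding.nonempty_of_card_le (by simpa using h)
  obtain ⟨c, hc, m⟩ := exists_min_image
    (univ.filter fun c : V → Fin 3 => ∀ u ∈ B, ∀ v ∈ B, c u = c v → u = v)
    (fun c => ∑ u ∈ Y, ∑ w ∈ Y, if c w = c u then W.μ u w else 0)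
    ⟨fun v => if h : v ∈ B then e ⟨v, h⟩ else 0, by
      simp only [mem_filter, mem_univ, true_and]
      intro u hu v hv k
      rw [dif_pos hu, dif_pos hv] at k
      exact congrArg Subtype.val (e.injective k)⟩
  simp only [mem_filter, mem_univ, true_and] at hc m
  refine ⟨c, hc, fun v hv n => ?_⟩
  have sp : ∀ c : V → Fin 3, (∑ u ∈ Y, ∑ w ∈ Y, if c w = c u then W.μ u w else 0) =
      (∑ u ∈ Y.erase v, ∑ w ∈ Y.erase v, if c w = c u then W.μ u w else 0) +
        2 * ∑ w ∈ Y.erase v, if c w = c v then W.μ v w else 0 := fun c => by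
    rw [← add_sum_erase _ _ hv, ← add_sum_erase _ _ hv, if_pos rfl, W.di,
      sum_congr rfl fun u _ => (add_sum_erase _ _ hv).symm, sum_add_distrib,
      sum_congr rfl fun u _ => show (if c v = c u then W.μ u v else 0) =
        if c u = c v then W.μ v u else 0 by rw [W.sy]; simp only [eq_comm]]
    ring
  have le : ∀ j, (∑ w ∈ Y.erase v, if c w = c v then W.μ v w else 0) ≤
      ∑ w ∈ Y.erase v, if c w = j then W.μ v w else 0 := fun j => by
    have := m (Function.update c v j) fun a ha b hb k => hc a ha b hb (by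
      rwa [Function.update_of_ne (ne_of_mem_of_not_mem ha n),
        Function.update_of_ne (ne_of_mem_of_not_mem hb n)] at k)
    rw [sp, sp, sum_congr rfl fun u hu => sum_congr rfl fun w hw => show
      (if Function.update c v j w = Function.update c v j u then W.μ u w else 0) =
        if c w = c u then W.μ u w else 0 by
          rw [Function.update_of_ne (ne_of_mem_erase hu),
            Function.update_of_ne (ne_of_mem_erase hw)],
      sum_congr rfl fun w hw => show
      (if Function.update c v j w = Function.update c v j v then W.μ v w else 0) =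
        if c w = j then W.μ v w else 0 by
          rw [Function.update_of_ne (ne_of_mem_erase hw), Function.update_self]] at this
    linarith
  have a := sum_le_sum fun j (_ : j ∈ (univ : Finset (Fin 3))) => le j
  rw [sum_const, card_univ, Fintype.card_fin, nsmul_eq_mul, sum_comm] at a
  simp only [sum_ite_eq, mem_univ, if_true] at a
  have b : W.r v (Y.filter fun w => c w = c v) =
      ∑ w ∈ Y.erase v, if c w = c v then W.μ v w else 0 := by
    rw [r, sum_filter, ← add_sum_erase _ _ hv, if_pos rfl, W.di, zero_add]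
  rw [b]
  exact a.trans (W.rm v (subset_univ _))

/-- At most one vertex of `B`, and the other vertices have few neighbours inside. -/
def Nice (W : Wt V) (B S : Finset V) : Prop :=
  (∀ u ∈ S, ∀ v ∈ S, u ∈ B → v ∈ B → u = v) ∧ ∀ v ∈ S, v ∉ B → 3 * W.r v S ≤ W.r v univ

theorem Nice.mono (h : W.Nice B S) (a : Z ⊆ S) : W.Nice B Z :=
  ⟨fun u hu v hv => h.1 u (a hu) v (a hv), fun v hv n => by linarith [h.2 v (a hv) n, W.rm v a]⟩

theorem Nice.inner (h : W.Nice B S) (hB : ∀ v ∈ B, τ + 1 < 2 * W.r v univ) :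
    3 * W.β S S ≤ W.β S univ ∨ 3 * W.β S S ≤ 2 * W.β S univ - (τ + 1) := by
  have k : ∀ T ⊆ S, (∀ v ∈ T, v ∉ B) → 3 * W.β T S ≤ W.β T univ := fun T a n => by
    rw [β, mul_sum]
    exact sum_le_sum fun v hv => h.2 v (a hv) (n v hv)
  by_cases z : ∃ z ∈ S, z ∈ B
  · obtain ⟨z, hz, b⟩ := z
    have a := singleton_subset_iff.2 hz
    have e1 := W.βx S a
    have e2 := W.βx univ a
    have e3 := W.βx {z} a
    have e4 := W.βm (S \ {z}) a
    have e5 := k (S \ {z}) sdiff_subset fun v hv n =>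
      (mem_sdiff.1 hv).2 (mem_singleton.2 (h.1 v (mem_sdiff.1 hv).1 z hz n b))
    have e6 : W.β {z} {z} = 0 := by simp [β, r, W.di]
    rw [W.βs S] at e3
    rw [W.β1] at e2
    exact Or.inr (by linarith [hB z b])
  · exact Or.inl (k S Subset.rfl fun v hv n => z ⟨v, hv, n⟩)

/-- A minimal good set. -/
theorem mg (t0 : 0 ≤ τ) (hd : ∀ v, W.r v univ ≤ τ) (g : τ < W.H univ Y) :
    ∃ T ⊆ Y, τ < W.H univ T ∧ 2 ≤ T.card ∧ ∀ n : ℕ, n ≤ T.card →
      n * W.H univ T ≤ n * τ + (W.β T univ - W.β T T) := by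
  obtain ⟨T, a, g, m⟩ := minimal (fun T => τ < W.H univ T) Y g
  refine ⟨T, a, g, ?_, fun n hn => ?_⟩
  · by_contra n
    rcases T.eq_empty_or_nonempty with rfl | ⟨v, hv⟩
    · exact g.not_ge (W.H0 univ ▸ t0)
    · rw [eq_singleton_iff_unique_mem.2 ⟨hv, fun u hu =>
        card_le_one.1 (by omega) u hu v hv⟩, W.H1] at g
      exact g.not_ge (hd v)
  · obtain ⟨K, hK, e⟩ := exists_subset_card_eq hn
    have := W.many (b := 0) (empty_subset _) (subset_univ T) (disjoint_empty_right _) hK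
      fun v hv => ⟨not_lt.1 (m v (hK hv)), by simp [r]⟩
    rw [e, add_zero] at this
    linarith [W.βn T ∅]

theorem duo (hd : ∀ v, W.r v univ ≤ τ) (hs : ∀ v, v ∉ B → 2 * W.r v univ ≤ τ + 1)
    (h : ∀ u ∈ S, ∀ v ∈ S, u ∈ B → v ∈ B → u = v) (e : S.card = 2) :
    2 * W.β S univ ≤ 3 * τ + 1 := by
  obtain ⟨u, v, n, rfl⟩ := card_eq_two.1 e
  rw [β, sum_pair n]
  by_cases a : u ∈ B
  · linarith [hd u, hs v fun b => n (h u (by simp) v (by simp) a b)]
  · linarith [hd v, hs u a]

theorem cheap (h1 : ∀ u v, W.μ u v ≤ 1) (t7 : 7 ≤ τ) (hd : ∀ v, W.r v univ ≤ τ)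
    (hB : ∀ v ∈ B, τ + 1 < 2 * W.r v univ) (hs : ∀ v, v ∉ B → 2 * W.r v univ ≤ τ + 1)
    (h : W.Nice B S) (g : 3 * τ < 2 * W.β S univ) :
    ∃ T ⊆ S, τ < W.H univ T ∧ 2 * W.β T univ < 3 * τ + 6 := by
  obtain ⟨T, a, gT, c, m⟩ := mg (Y := S) (by linarith) hd (by
    unfold H
    rcases h.inner hB with k | k <;> linarith [W.βn S univ])
  refine ⟨T, a, gT, ?_⟩
  have b := βc h1 T
  unfold H at m
  rcases (show T.card = 2 ∨ T.card = 3 ∨ T.card = 4 ∨ 5 ≤ T.card by omega) with e | e | e | e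
  · linarith [duo hd hs (h.mono a).1 e]
  · have := m 3 e.ge
    rw [e] at b
    push_cast at this b
    linarith
  · have := m 4 e.ge
    rw [e] at b
    push_cast at this b
    linarith
  · have := m 5 e
    push_cast at this
    rcases (h.mono a).inner hB with k | k <;> linarith

theorem Fam.low (t0 : 0 ≤ τ) (hd : ∀ v, W.r v univ ≤ τ) (j : ℕ)
    (h : (2 * j + 3) * τ < W.β Y univ) : W.Fam τ (2 + j) Y := by
  have b0 : ∀ Y, W.β Y ∅ = 0 := fun Y => by simp [β, r]
  exact Fam.greedy (C := ∅) (b := 0) (κ := 3 * τ) t0 le_rfl (by positivity)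
    (disjoint_empty_right _) (fun v _ => hd v) (fun v _ => by simp [r])
    (fun Y _ h => Fam.two (fun v _ => hd v) (by linarith [b0 Y])) j _ Subset.rfl
    (by linarith [b0 Y])

theorem Fam.four (h1 : ∀ u v, W.μ u v ≤ 1) (t7 : 7 ≤ τ) (hd : ∀ v, W.r v univ ≤ τ)
    (hB : ∀ v ∈ B, τ + 1 < 2 * W.r v univ) (hs : ∀ v, v ∉ B → 2 * W.r v univ ≤ τ + 1)
    (h3 : (B ∩ Y).card ≤ 3) (j : ℕ) (h : (2 * j + 6) * τ + 6 ≤ W.β Y univ) :
    W.Fam τ (j + 4) Y := by
  obtain ⟨c, hc, k⟩ := W.col Y h3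
  have pick : ∀ Z ⊆ Y, 9 * τ < 2 * W.β Z univ →
      ∃ T ⊆ Z, τ < W.H univ T ∧ 2 * W.β T univ < 3 * τ + 6 := fun Z a g => by
    have e : ∑ i, W.β (Z.filter fun w => c w = i) univ = W.β Z univ := sum_fiberwise _ _ _
    obtain ⟨i, hi⟩ : ∃ i, 3 * τ < 2 * W.β (Z.filter fun w => c w = i) univ := by
      by_contra n
      push Not at n
      rw [Fin.sum_univ_three] at e
      linarith [n 0, n 1, n 2]
    obtain ⟨T, b, z⟩ := cheap h1 t7 hd hB hs (Nice.mono (S := Y.filter fun w => c w = i)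
      ⟨fun u hu v hv x y => hc u (mem_inter.2 ⟨x, (mem_filter.1 hu).1⟩) v
        (mem_inter.2 ⟨y, (mem_filter.1 hv).1⟩)
        ((mem_filter.1 hu).2.trans (mem_filter.1 hv).2.symm), fun v hv n =>
        (mem_filter.1 hv).2 ▸ k v (mem_filter.1 hv).1 fun x => n (mem_inter.1 x).1⟩
      (filter_subset_filter _ a)) hi
    exact ⟨T, b.trans (filter_subset _ _), z⟩
  have p := mul_nonneg (Nat.cast_nonneg (α := ℝ) j) (show 0 ≤ τ by linarith)
  obtain ⟨S, a, g, s⟩ := pick Y Subset.rfl (by linarith)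
  have e1 := W.βx univ a
  obtain ⟨T, b, g', t⟩ := pick (Y \ S) sdiff_subset (by linarith)
  have e2 := W.βx univ b
  exact (((Fam.low (by linarith) hd j (by linarith)).step g' disjoint_sdiff sdiff_subset b).step g
    disjoint_sdiff sdiff_subset a).mono (by omega) Subset.rfl

theorem Fam.pairs (h1 : ∀ u v, W.μ u v ≤ 1) {n : ℕ} (h : W.Fam τ n Z) (j : ℕ) :
    ∀ X : Finset V, (∀ v ∈ X, τ + 1 < 2 * W.r v univ) → X.card = 2 * j → Disjoint X Z →
      W.Fam τ (n + j) (X ∪ Z) := by
  induction j with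
  | zero => exact fun X _ _ _ => h.mono le_rfl subset_union_right
  | succ j ih =>
    intro X hX e d
    obtain ⟨S, a, c⟩ := exists_subset_card_eq (show 2 ≤ X.card by omega)
    refine (ih (X \ S) (fun v hv => hX v (sdiff_subset hv)) (by rw [card_sdiff_of_subset a]; omega)
      (d.mono_left sdiff_subset)).step ?_ (disjoint_union_right.2 ⟨disjoint_sdiff, d.mono_left a⟩)
      (union_subset_union_left sdiff_subset) (a.trans subset_union_left)
    have b := βc h1 S
    rw [c] at b
    obtain ⟨u, v, n, rfl⟩ := card_eq_two.1 c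
    rw [H, β, sum_pair n]
    push_cast at b
    linarith [hX u (a (by simp)), hX v (a (by simp))]

/-- The case of graphs without a vertex of large degree. -/
theorem Fam.star (h1 : ∀ u v, W.μ u v ≤ 1) (hd : ∀ v, W.r v univ ≤ τ) {k : ℕ}
    (t : 2 * (k : ℝ) + 7 ≤ τ) (m : 2 * ((k + 3) * (τ + 1)) ≤ W.β univ univ) :
    W.Fam τ (k + 4) univ := by
  classical
  obtain ⟨B, eB⟩ : ∃ B, B = univ.filter fun v => τ + 1 < 2 * W.r v univ := ⟨_, rfl⟩
  have hB : ∀ v ∈ B, τ + 1 < 2 * W.r v univ := fun v hv => by simpa [eB] using hv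
  have hs : ∀ v, v ∉ B → 2 * W.r v univ ≤ τ + 1 := fun v hv => by simpa [eB] using hv
  have k0 := k.cast_nonneg (α := ℝ)
  have fin : ∀ j n : ℕ, 2 * j ≤ B.card → k + 4 ≤ n + j → (∀ X : Finset V, X.card = 2 * j →
      (B ∩ Xᶜ).card + 2 * j = B.card → W.β Xᶜ univ + W.β X univ = W.β univ univ →
      W.β Xᶜ X + W.β X X = W.β X univ → W.β X X ≤ 2 * j * (2 * j - 1) → W.Fam τ n Xᶜ) →
      W.Fam τ (k + 4) univ := fun j n a l h => by
    obtain ⟨X, b, e⟩ := exists_subset_card_eq a
    have c := βc h1 X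
    rw [e] at c
    push_cast at c
    exact ((h X e (by rw [← sdiff_eq_inter_compl, card_sdiff_of_subset b]; omega)
      (by rw [← W.βl _ disjoint_compl_left, union_comm, union_compl])
      (by rw [← W.βl _ disjoint_compl_left, union_comm, union_compl, W.βs]) c).pairs h1 j X
      (fun v hv => hB v (b hv)) e disjoint_compl_right).mono l (subset_univ _)
  rcases le_or_gt (2 * (k + 3)) B.card with a | a
  · refine fin (k + 3) 1 a (by omega) fun X _ _ e1 e2 e3 => Fam.zero.step
      (good (C := X) disjoint_compl_left ?_) (disjoint_empty_right _) (empty_subset _) Subset.rfl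
    push_cast at e3
    nlinarith
  rcases le_or_gt (2 * (k + 2)) B.card with b | b
  · refine fin (k + 2) 2 b (by omega) fun X e e0 e1 e2 e3 => ?_
    push_cast at e3
    have q := mul_nonneg k0 (sub_nonneg.2 t)
    obtain ⟨T, x, g, c, z⟩ := mg (Y := Xᶜ) (by linarith) hd
      (good (C := X) disjoint_compl_left (by nlinarith))
    have d : Disjoint T X := disjoint_compl_left.mono_left x
    have e4 := W.βx univ x
    have e5 := W.βx X x
    have e6 := W.β2 T d (subset_univ _) (subset_univ _)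
    refine (Fam.zero.step (good (C := X) (disjoint_compl_left.mono_left sdiff_subset) ?_)
      (disjoint_empty_right _) (empty_subset _) Subset.rfl).step g disjoint_sdiff sdiff_subset x
    rcases c.eq_or_lt with c | c
    · have e7 := duo hd hs (fun u hu v hv y y' => card_le_one.1 (show (B ∩ Xᶜ).card ≤ 1 by omega)
        u (mem_inter.2 ⟨y, x hu⟩) v (mem_inter.2 ⟨y', x hv⟩)) c.symm
      have e8 : W.β T X ≤ _ := sum_le_card_nsmul T _ _ fun v _ => rc h1 v X
      rw [← c, e, nsmul_eq_mul] at e8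
      push_cast at e8
      nlinarith
    · have := z 3 c
      unfold H at this
      push_cast at this
      nlinarith [W.βn T T]
  · refine fin ((B.card - 2) / 2) (k - (B.card - 2) / 2 + 4) (by omega) (by omega)
      fun X e e0 e1 _ _ => Fam.four h1 (by linarith) hd hB hs (by omega) _ ?_
    have := βd (S := X) fun v _ => hd v
    rw [e] at this
    rw [Nat.cast_sub (by omega)]
    push_cast at this
    linarith

/-- The case of a vertex of large degree. -/
theorem Fam.hub (h1 : ∀ u v, W.μ u v ≤ 1) (t0 : 0 ≤ τ) {k : ℕ}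
    (m : ∀ b : ℕ, 1 ≤ b → (b : ℝ) * (b - 1) + 2 * τ + (k - b - 1) * (2 * (τ + b)) < W.β univ univ)
    {z : V} (hz : τ < W.r z univ) : W.Fam τ k univ := by
  classical
  obtain ⟨C, eC⟩ : ∃ C, C = univ.filter fun v => τ < W.r v univ := ⟨_, rfl⟩
  have g : ∀ v ∈ C, τ < W.r v univ := fun v hv => by simpa [eC] using hv
  have g' : ∀ v ∈ Cᶜ, W.r v univ ≤ τ := fun v hv => by simpa [eC] using hv
  rcases le_or_gt k C.card with l | l
  · exact ((Fam.zero (Y := Cᶜ)).big disjoint_compl_left g).mono (by omega) (subset_univ _)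
  obtain ⟨j, rfl⟩ := Nat.exists_eq_add_of_lt l
  have e0 := m _ (card_pos.2 ⟨z, by simpa [eC] using hz⟩ : 0 < C.card)
  have e1 := βc h1 C
  have e2 := W.βl univ (S := Cᶜ) (T := C) disjoint_compl_left
  have e3 := W.βr C (S := Cᶜ) (T := C) disjoint_compl_left
  rw [union_comm, union_compl] at e2 e3
  refine ((Fam.greedy (κ := 2 * τ) (n := 1) t0 C.card.cast_nonneg (by linarith) disjoint_compl_left
    g' (fun v _ => rc h1 v C) (fun Y a h => Fam.zero.step (good (disjoint_compl_left.mono_left a) h)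
      (disjoint_empty_right _) (empty_subset _) Subset.rfl) j _ Subset.rfl ?_).big
    disjoint_compl_left g).mono (by omega) (subset_univ _)
  push_cast at e0
  rw [W.βs _ C]
  linarith

end Wt

end Pool.Agent.MP_f151b7_co.ET
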