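import Pool.Agent.MP_f151b7_co.ET.Star
import Pool.Agent.Results.MP_f151b7_co.Disproof

/-! The exact number of edges that all `k` classes can be made to meet, for `k ≥ 4` and graphs
with more than `(k - 1) (k - 3)` edges. -/

set_option autoImplicit false

namespace Pool.Agent.MP_f151b7_co.ET

open Finset Pool.Agent.Results.MP_f151b7_co

theorem lower {V : Type} [Fintype V] (G : SimpleGraph V) {j τ : ℕ}
    (a : (j + 3) * (j + 1) < G.edgeSet.ncard) (a' : j ≤ τ)
    (b : (j + 3) * (τ + 1) ≤ G.edgeSet.ncard)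
    (n : τ = 2 * j + 6 → G.edgeSet.ncard ≠ (2 * j + 7) * (j + 3)) :
    ∃ c : V → Fin (j + 4), ∀ i, τ < {e ∈ G.edgeSet | ∃ v ∈ e, c v = i}.ncard := by
  classical
  have e := hand G
  generalize G.edgeSet.ncard = m at a b n e
  have b' : ((j : ℝ) + 3) * (τ + 1) ≤ m := by exact_mod_cast b
  refine colour G (by omega) ?_
  by_cases z : ∃ z, (τ : ℝ) < (adj G).r z univ
  · obtain ⟨z, hz⟩ := z
    refine Wt.Fam.hub (adj_le G) τ.cast_nonneg (fun x hx => ?_) hz
    have x1 : (1 : ℝ) ≤ x := by exact_mod_cast hx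
    push_cast
    rcases a'.eq_or_lt with rfl | l
    · have : ((j : ℝ) + 3) * (j + 1) + 1 ≤ m := by exact_mod_cast a
      nlinarith [sq_nonneg (2 * (x : ℝ) - 5)]
    · have : (j : ℝ) + 1 ≤ τ := by exact_mod_cast l
      nlinarith [sq_nonneg (2 * (x : ℝ) - 3), mul_nonneg (sub_nonneg.2 x1) (sub_nonneg.2 this)]
  have d : ∀ v, (adj G).r v univ ≤ τ := fun v => not_lt.1 fun n => z ⟨v, n⟩
  rcases le_or_gt (2 * j + 7) τ with l | l
  · exact Wt.Fam.star (adj_le G) d (by exact_mod_cast l) (by linarith)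
  · refine (Wt.Fam.low τ.cast_nonneg d (j + 2) ?_).mono (by omega) Subset.rfl
    have : (2 * (j + 2) + 3) * τ < 2 * m := by
      rcases (Nat.lt_succ_iff.1 l).eq_or_lt with k | k
      · have := lt_of_le_of_ne (show (2 * j + 7) * (j + 3) ≤ m by rw [k] at b; linarith) (n k).symm
        rw [k]
        linarith
      · linarith
    rw [e]
    exact_mod_cast this

theorem clique (k : ℕ) (c : Fin (2 * k + 1) → Fin (k + 1)) : ∃ i,
    {e ∈ (⊤ : SimpleGraph (Fin (2 * k + 1))).edgeSet | ∃ v ∈ e, c v = i}.ncard ≤ 2 * k := by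
  classical
  obtain ⟨i, -, hi⟩ := exists_card_fiber_lt_of_card_lt_mul (s := univ) (t := univ) (f := c) (n := 2)
    (by simp; omega)
  obtain ⟨v, hv⟩ := (card_le_one_iff_subset_singleton).1 (Nat.lt_succ_iff.1 hi)
  refine ⟨i, (Set.ncard_le_ncard (t := ((⊤ : SimpleGraph _).incidenceFinset v : Set _)) ?_).trans ?_⟩
  · rintro e ⟨a, u, hu, b⟩
    rw [mem_singleton.1 (hv (mem_filter.2 ⟨mem_univ u, b⟩))] at hu
    exact mem_coe.2 ((SimpleGraph.mem_incidenceFinset _ _ _).2 ⟨a, hu⟩)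
  · rw [Set.ncard_coe_finset, SimpleGraph.card_incidenceFinset_eq_degree]
    simp

theorem value : ∀ k m : ℕ, 4 ≤ k → (k - 1) * (k - 3) < m →
    IsGreatest {t : ℕ | ∀ (V : Type) (_ : Fintype V) (G : SimpleGraph V), G.edgeSet.ncard = m →
      ∃ c : V → Fin k, ∀ i : Fin k, t ≤ {e ∈ G.edgeSet | ∃ v ∈ e, c v = i}.ncard}
      (if m = (2 * k - 1).choose 2 then 2 * k - 2 else m / (k - 1)) := by
  intro k m hk hm
  obtain ⟨j, rfl⟩ := Nat.exists_eq_add_of_le' hk
  have e : (2 * (j + 3) + 1).choose 2 = (2 * j + 7) * (j + 3) := by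
    rw [Nat.choose_two_right]
    exact Nat.div_eq_of_eq_mul_left two_pos (by rw [Nat.add_sub_cancel]; ring)
  rw [show j + 4 - 1 = j + 3 by omega, show j + 4 - 3 = j + 1 by omega] at *
  rw [show 2 * (j + 4) - 1 = 2 * (j + 3) + 1 by omega, e]
  split_ifs with h
  · refine ⟨fun V _ G hG => lower G (τ := 2 * j + 5) (hG ▸ hm) (by omega)
      (by rw [hG, h]; nlinarith) (by omega), fun t ht => ?_⟩
    obtain ⟨c, hc⟩ := ht _ inferInstance (⊤ : SimpleGraph (Fin (2 * (j + 3) + 1))) (by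
      classical
      rw [← SimpleGraph.coe_edgeFinset, Set.ncard_coe_finset,
        SimpleGraph.card_edgeFinset_top_eq_card_choose_two, Fintype.card_fin, e, h])
    obtain ⟨i, hi⟩ := clique (j + 3) c
    exact (hc i).trans hi
  · have q : j + 1 ≤ m / (j + 3) := (Nat.le_div_iff_mul_le (by omega)).2 (by linarith)
    refine ⟨fun V _ G hG => ?_, fun t ht => ?_⟩
    · obtain ⟨τ, hτ⟩ : ∃ τ, m / (j + 3) = τ + 1 := ⟨_, (Nat.succ_pred_eq_of_pos (by omega)).symm⟩
      rw [hτ]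
      exact lower G (hG ▸ hm) (by omega) (by rw [hG, ← hτ]; exact Nat.mul_div_le _ _)
        fun _ => hG ▸ h
    · obtain ⟨c, hc⟩ := ht _ inferInstance (Disproof.splitGraph 1 m) (by
        have := Disproof.two_mul_edges 1 m
        omega)
      obtain ⟨i, hi⟩ := Disproof.exists_poor_class 1 m (j + 4) (m / (j + 3))
        (Nat.lt_mul_div_succ m (by omega)) c
      exact (hc i).trans (hi.trans_eq (mul_one _))

end Pool.Agent.MP_f151b7_co.ET
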